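import Mathlib

/-!
# Weakly contractive set-valued maps have fixed points

Since `γ` is subadditive and monotone, `γ t` is at least `c * t` on each bounded interval, so that
`θ t ≥ c' * t` on each bounded interval. So the map is a contraction with a uniform constant on pairs
of points at bounded distance, and the usual iteration for set-valued contractions converges. No
compactness of the values is needed.
-/

set_option autoImplicit false

namespace Pool.Agent.Results.MP_e93574_an.FixedPoint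

open Set Filter Topology NNReal Metric

/-- The class `Γ` of continuous, nondecreasing and subadditive maps that vanish only at `0`. -/
def ClassGamma (γ : ℝ≥0 → ℝ≥0) : Prop :=
  Continuous γ ∧ Monotone γ ∧ (∀ s t, γ (s + t) ≤ γ s + γ t) ∧ ∀ t, γ t = 0 ↔ t = 0

/-- The class `𝒜` of maps `θ` that are at least some `γ` of the class `Γ` wherever they are at most
some `ε > 0`. -/
def ClassA (θ : ℝ≥0 → ℝ≥0) : Prop :=
  ∃ ε : ℝ≥0, 0 < ε ∧ ∃ γ : ℝ≥0 → ℝ≥0, ClassGamma γ ∧ ∀ t, θ t ≤ ε → γ t ≤ θ t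

theorem subadd_nat {γ : ℝ≥0 → ℝ≥0} (hγ : ClassGamma γ) (n : ℕ) (t : ℝ≥0) :
    γ (n * t) ≤ n * γ t := by
  induction n with
  | zero => simp [(hγ.2.2.2 0).2 rfl]
  | succ n ih =>
    push_cast
    rw [add_mul, one_mul, add_mul, one_mul]
    exact (hγ.2.2.1 _ _).trans (add_le_add ih le_rfl)

/-- A linear lower bound for `θ` on `(0, R]`. -/
theorem linear_lower {θ : ℝ≥0 → ℝ≥0} (hθ : ClassA θ) {R : ℝ} (hR : 0 < R) :
    ∃ c : ℝ, 0 < c ∧ c ≤ 1 / 2 ∧ ∀ t : ℝ≥0, (t : ℝ) ≤ R → c * t ≤ θ t := by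
  obtain ⟨ε, hε, γ, hγ, h⟩ := hθ
  obtain ⟨R', hR'⟩ : ∃ R' : ℝ≥0, (R' : ℝ) = R := ⟨R.toNNReal, Real.coe_toNNReal R hR.le⟩
  have hγR : 0 < γ R' := by
    rw [pos_iff_ne_zero]
    intro h0
    have h2 := (hγ.2.2.2 _).1 h0
    rw [h2] at hR'
    simp at hR'
    linarith
  set G : ℝ := (γ R' : ℝ) with hG
  have hGpos : 0 < G := by exact_mod_cast hγR
  have hεpos : (0 : ℝ) < ε := by exact_mod_cast hε
  refine ⟨min (min (G / (2 * R)) (ε / R)) (1 / 2), by positivity, min_le_right _ _, ?_⟩
  intro t ht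
  rcases eq_or_lt_of_le (show (0 : ℝ) ≤ t from t.2) with h0 | hpos
  · rw [← h0, mul_zero]; exact (θ t).2
  set c := min (min (G / (2 * R)) (ε / R)) (1 / 2) with hc
  have hc1 : c ≤ G / (2 * R) := (min_le_left _ _).trans (min_le_left _ _)
  have hc2 : c ≤ ε / R := (min_le_left _ _).trans (min_le_right _ _)
  have hcpos : 0 < c := by positivity
  rcases le_or_gt (θ t) ε with h1 | h1
  · have h2 : γ t ≤ θ t := h t h1
    have h2' : (γ t : ℝ) ≤ θ t := by exact_mod_cast h2
    refine le_trans ?_ h2'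
    set n := ⌈R / t⌉₊ with hn
    have hn1 : R ≤ n * t := by
      have := Nat.le_ceil (R / t)
      rwa [div_le_iff₀ hpos] at this
    have hn2 : (n : ℝ) * t ≤ 2 * R := by
      have h3 : (n : ℝ) < R / t + 1 := Nat.ceil_lt_add_one (by positivity)
      have h4 : (n : ℝ) * t < (R / t + 1) * t := by gcongr
      have h5 : (R / t + 1) * t = R + t := by field_simp
      linarith
    have h6 : γ R' ≤ γ (n * t) := hγ.2.1 (by
      rw [← NNReal.coe_le_coe]
      push_cast
      rw [hR']
      exact hn1)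
    have h7 : γ R' ≤ n * γ t := h6.trans (subadd_nat hγ n t)
    have h8 : G ≤ n * γ t := by
      rw [hG]
      exact_mod_cast h7
    have hγt : (0 : ℝ) ≤ γ t := (γ t).2
    have h9 : c * (2 * R) ≤ G := by
      rwa [le_div_iff₀ (by positivity)] at hc1
    have h10 : c * t * (n * t) ≤ γ t * (n * t) := by
      calc c * t * (n * t) = (c * (n * t)) * t := by ring
        _ ≤ (c * (2 * R)) * t := by gcongr
        _ ≤ G * t := by gcongr
        _ ≤ (n * γ t) * t := by gcongr
        _ = γ t * (n * t) := by ring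
    have h11 : 0 < (n : ℝ) * t := lt_of_lt_of_le hR hn1
    exact le_of_mul_le_mul_right h10 h11
  · have h1' : (ε : ℝ) < θ t := by exact_mod_cast h1
    have h2 : c * R ≤ ε := by rwa [le_div_iff₀ hR] at hc2
    have h3 : c * t ≤ c * R := by gcongr
    linarith

/-- Every weakly contractive map from a nonempty complete metric space to its nonempty closed bounded
subsets has a fixed point. -/
theorem result {X : Type*} [MetricSpace X] [CompleteSpace X] [Nonempty X] (T : X → Set X)
    (hne : ∀ x, (T x).Nonempty) (hcl : ∀ x, IsClosed (T x)) (hbd : ∀ x, Bornology.IsBounded (T x))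
    (θ : ℝ≥0 → ℝ≥0) (hθ : ClassA θ)
    (hT : ∀ x y, hausdorffDist (T x) (T y) ≤ dist x y - θ (nndist x y)) :
    ∃ x, x ∈ T x := by
  obtain ⟨x0⟩ := ‹Nonempty X›
  obtain ⟨x1, hx1⟩ := hne x0
  rcases eq_or_ne x0 x1 with h01 | h01
  · exact ⟨x0, by rw [← h01] at hx1; exact hx1⟩
  set R := dist x0 x1 with hR
  have hRpos : 0 < R := dist_pos.2 h01
  obtain ⟨c, hc0, hc1, hc⟩ := linear_lower hθ hRpos
  have hfin : ∀ x y, hausdorffEDist (T x) (T y) ≠ ⊤ := fun x y =>
    hausdorffEDist_ne_top_of_nonempty_of_bounded (hne x) (hne y) (hbd x) (hbd y)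
  set k := 1 - c / 2 with hk
  have hk0 : 0 < k := by linarith
  have hk1 : k < 1 := by linarith
  have hstep : ∀ x y, y ∈ T x → dist x y ≤ R → ∃ z ∈ T y, dist y z ≤ k * dist x y := by
    intro x y hy hxy
    rcases eq_or_ne x y with h | h
    · refine ⟨y, ?_, ?_⟩
      · rw [h] at hy; exact hy
      · rw [dist_self, h, dist_self, mul_zero]
    · have hpos : 0 < dist x y := dist_pos.2 h
      have h1 := hc (nndist x y) (by rw [coe_nndist]; exact hxy)
      rw [coe_nndist] at h1
      have h2 : hausdorffDist (T x) (T y) < k * dist x y := by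
        have := hT x y
        have h3 : k * dist x y = dist x y - c / 2 * dist x y := by rw [hk]; ring
        have h4 : c / 2 * dist x y < c * dist x y := by
          apply mul_lt_mul_of_pos_right _ hpos
          linarith
        linarith
      obtain ⟨z, hz, hz'⟩ := exists_dist_lt_of_hausdorffDist_lt hy h2 (hfin x y)
      exact ⟨z, hz, hz'.le⟩
  -- the orbit
  let Y := {p : X × X // p.2 ∈ T p.1 ∧ dist p.1 p.2 ≤ R}
  have hnext : ∀ p : Y, ∃ q : Y, q.1.1 = p.1.2 ∧ dist q.1.1 q.1.2 ≤ k * dist p.1.1 p.1.2 := by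
    rintro ⟨⟨x, y⟩, hy, hxy⟩
    obtain ⟨z, hz, hz'⟩ := hstep x y hy hxy
    have h1 : k * dist x y ≤ R := by
      have : (0 : ℝ) ≤ dist x y := dist_nonneg
      simp only at hxy
      nlinarith
    exact ⟨⟨(y, z), hz, hz'.trans h1⟩, rfl, hz'⟩
  choose nxt hn1 hn2 using hnext
  let u : ℕ → Y := fun n => nxt^[n] ⟨(x0, x1), hx1, le_rfl⟩
  have hu : ∀ n, u (n + 1) = nxt (u n) := fun n => Function.iterate_succ_apply' _ _ _
  have hd : ∀ n, dist (u n).1.1 (u n).1.2 ≤ R * k ^ n := by
    intro n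
    induction n with
    | zero => simp [u, hR]
    | succ n ih =>
      rw [hu]
      refine (hn2 (u n)).trans ?_
      rw [pow_succ]
      nlinarith
  let v : ℕ → X := fun n => (u n).1.1
  have hv : ∀ n, v (n + 1) = (u n).1.2 := fun n => by
    simp only [v]
    rw [hu]
    exact hn1 (u n)
  have hcau : CauchySeq v := by
    refine cauchySeq_of_le_geometric k R hk1 fun n => ?_
    rw [hv]
    exact hd n
  obtain ⟨z, hz⟩ := cauchySeq_tendsto_of_complete hcau
  refine ⟨z, ?_⟩
  rw [← (hcl z).closure_eq, mem_closure_iff_infDist_zero (hne z)]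
  have hle : ∀ n, infDist z (T z) ≤ dist z (v (n + 1)) + dist (v n) z := by
    intro n
    have h1 : v (n + 1) ∈ T (v n) := by
      rw [hv]
      exact (u n).2.1
    have h2 : infDist (v (n + 1)) (T z) ≤ hausdorffDist (T (v n)) (T z) :=
      infDist_le_hausdorffDist_of_mem h1 (hfin _ _)
    have h3 : infDist z (T z) ≤ infDist (v (n + 1)) (T z) + dist z (v (n + 1)) :=
      infDist_le_infDist_add_dist
    have h4 := hT (v n) z
    have h5 : (0 : ℝ) ≤ θ (nndist (v n) z) := (θ _).2
    linarith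
  have hlim : Tendsto (fun n => dist z (v (n + 1)) + dist (v n) z) atTop (𝓝 (0 + 0)) := by
    refine Tendsto.add ?_ (tendsto_iff_dist_tendsto_zero.1 hz)
    have h1 := (tendsto_add_atTop_iff_nat 1).2 hz
    have h2 := tendsto_iff_dist_tendsto_zero.1 h1
    refine h2.congr fun n => dist_comm _ _
  rw [add_zero] at hlim
  exact le_antisymm (ge_of_tendsto' hlim hle) infDist_nonneg

end Pool.Agent.Results.MP_e93574_an.FixedPoint
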